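import Mathlib
import Pool.Agent.R499.Linear

/-!
# Q1: valuations of `(1/n) ∑_{k<n} (2k+1) (-1)^k A_k(x)`

Write `A_k(x) = ∑_s a_s(x) b_s(k)` with `b_s(k) = C(k,s) C(k+s,s)` and
`a_s(x) = ∑_j C(s,j)² C(2j,s) x^j`.  At `x = 1/4` one has
`a_s = (s+1) E_{s+1} + s E_s` with `E_s ∈ ℤ[1/4]`, and hence
`∑_{k<n} (2k+1) (-1)^k A_k(1/4) = (-1)^{n+1} n² ∑_l E_{l+1} C(n,l+1) C(n+l,l)`.
-/

set_option autoImplicit false

namespace Pool.Agent.Results.MP_2869d0_nt.AperySums

open Finset Pool.Agent.R499.Linear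

variable {R : Type*} [CommRing R]

/-- `A_n(x) = ∑_{k=0}^n C(n,k)² C(n+k,k)² x^k` -/
def A (n : ℕ) (x : R) : R :=
  ∑ k ∈ range (n + 1), (n.choose k : R) ^ 2 * ((n + k).choose k : R) ^ 2 * x ^ k

/-- the coefficients of `A_k(x)` in the basis `b_s(k)` -/
def a (s : ℕ) (x : R) : R := ∑ j ∈ range (s + 1), (s.choose j : R) ^ 2 * ((2 * j).choose s : R) * x ^ j

lemma A_ext (x : R) {n N : ℕ} (h : n < N) : A n x = ∑ j ∈ range N, (b j n : R) ^ 2 * x ^ j := by
  have e : A n x = ∑ j ∈ range (n + 1), (b j n : R) ^ 2 * x ^ j := by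
    unfold A b
    push_cast
    apply sum_congr rfl
    intro j _
    ring
  rw [e]
  apply sum_subset (Finset.range_subset_range.mpr h)
  intro i _ hi
  rw [b_eq_zero (by simpa using hi)]
  simp

lemma a_ext (x : R) {s N : ℕ} (h : s < N) : a s x = ∑ j ∈ range N, (c s j j : R) * x ^ j := by
  have e : a s x = ∑ j ∈ range (s + 1), (c s j j : R) * x ^ j := by
    unfold a c
    apply sum_congr rfl
    intro j _
    rw [two_mul]
    push_cast
    ring
  rw [e]
  apply sum_subset (Finset.range_subset_range.mpr h)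
  intro i _ hi
  unfold c
  rw [Nat.choose_eq_zero_of_lt (show s < i by simpa using hi)]
  simp

/-- `A_k(x) = ∑_s a_s(x) b_s(k)` -/
lemma A_eq (x : R) {k n : ℕ} (h : k < n) : A k x = ∑ s ∈ range n, a s x * (b s k : R) := by
  rw [A_ext x h]
  have h1 : ∀ j ∈ range n, (b j k : R) ^ 2 * x ^ j
      = ∑ s ∈ range (2 * n), (c s j j : R) * (b s k : R) * x ^ j := by
    intro j hj
    have hj' := mem_range.mp hj
    have := prod_b j j k (2 * n) (by omega)
    have h2 := congrArg (fun z : ℤ => (z : R)) this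
    push_cast at h2
    rw [pow_two, h2, sum_mul]
  rw [sum_congr rfl h1, sum_comm]
  have h3 : ∑ s ∈ range n, a s x * (b s k : R) = ∑ s ∈ range (2 * n), (∑ j ∈ range n, (c s j j : R) * x ^ j) * (b s k : R) := by
    have h4 : ∑ s ∈ range n, a s x * (b s k : R)
        = ∑ s ∈ range n, (∑ j ∈ range n, (c s j j : R) * x ^ j) * (b s k : R) := by
      apply sum_congr rfl
      intro s hs
      rw [a_ext x (mem_range.mp hs)]
    rw [h4]
    apply sum_subset (Finset.range_subset_range.mpr (by omega))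
    intro s _ hs
    rw [b_eq_zero (show k < s by
      have : n ≤ s := by simpa using hs
      omega)]
    simp
  rw [h3]
  apply sum_congr rfl
  intro s _
  rw [sum_mul]
  apply sum_congr rfl
  intro j _
  ring

/-- the numbers `E_{l+1}` -/
def E (l : ℕ) (y : R) : R :=
  2 * ∑ i ∈ range (l + 1), ((l + 1).choose (i + 1) : R) * ((2 * i + 2).choose (l + 1) : R)
    * ((l.choose i : R) - 2 * (l.choose (i + 1) : R)) * y ^ (i + 1)

/-- `F_m = m E_m` -/
def F (m : ℕ) (y : R) : R :=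
  2 * ∑ j ∈ range (m + 1), (m.choose j : R) ^ 2 * ((2 * j).choose m : R) * (3 * (j : R) - 2 * (m : R)) * y ^ j

lemma F_zero (y : R) : F 0 y = 0 := by simp [F]

lemma F_succ (l : ℕ) (y : R) : F (l + 1) y = ((l : R) + 1) * E l y := by
  unfold F E
  rw [sum_range_succ' _ (l + 1)]
  have h0 : ((2 * 0).choose (l + 1) : R) = 0 := by simp
  rw [h0]
  simp only [mul_zero, zero_mul, add_zero]
  rw [← mul_assoc, mul_comm ((l : R) + 1) 2, mul_assoc]
  congr 1
  rw [mul_sum]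
  apply sum_congr rfl
  intro i _
  have h1 := ch_diag l i
  have h2 := ch_up l (i + 1)
  have h1' := congrArg (fun z : ℤ => (z : R)) h1
  have h2' := congrArg (fun z : ℤ => (z : R)) h2
  push_cast at h1' h2'
  rw [show 2 * (i + 1) = 2 * i + 2 by ring]
  push_cast
  generalize ((l + 1).choose (i + 1) : R) = u at *
  generalize ((2 * i + 2).choose (l + 1) : R) = v at *
  generalize (l.choose i : R) = w at *
  generalize (l.choose (i + 1) : R) = z at *
  linear_combination (-(u * v * y ^ (i + 1))) * h1' - (2 * u * v * y ^ (i + 1)) * h2'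

/-- the two-term relation behind the telescoping -/
lemma term_rel (m j : ℕ) :
    2 * (2 * (j : ℤ) + 1) * ((m.choose j : ℤ) ^ 2 * ((2 * j).choose m : ℤ))
      = (2 * ((m : ℤ) + 1) * (m.choose (j + 1) : ℤ) ^ 2
          + (3 * (j : ℤ) + 1 - 2 * m) * ((m + 1).choose (j + 1) : ℤ) ^ 2)
        * ((2 * j + 2).choose (m + 1) : ℤ) := by
  have h1 := ch_diag m j
  have h2 := ch_up m (j + 1)
  have h4 := ch_up (2 * j) m
  have h5 := ch_diag (2 * j + 1) m
  rw [show 2 * j + 1 + 1 = 2 * j + 2 by ring] at h5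
  push_cast at h1 h2 h4 h5
  have hm : ((m : ℤ) + 1) ^ 2 ≠ 0 := by positivity
  apply mul_left_cancel₀ hm
  generalize ((m + 1).choose (j + 1) : ℤ) = u at *
  generalize (m.choose j : ℤ) = w at *
  generalize (m.choose (j + 1) : ℤ) = z at *
  generalize ((2 * j).choose m : ℤ) = v at *
  generalize ((2 * j + 1).choose m : ℤ) = q at *
  generalize ((2 * j + 2).choose (m + 1) : ℤ) = t at *
  have hv : ((m : ℤ) + 1) * (2 * j + 1 - m) * t = (2 * j + 2) * (2 * j + 1) * v := by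
    linear_combination (2 * (j : ℤ) + 2) * h4 - (2 * (j : ℤ) + 1 - m) * h5
  linear_combination 2 * (2 * (j : ℤ) + 1) * v * (((m : ℤ) + 1) * w + ((j : ℤ) + 1) * u) * h1
    + 2 * ((m : ℤ) + 1) * t * (((m : ℤ) - j) * u + ((m : ℤ) + 1) * z) * h2
    - ((j : ℤ) + 1) * u ^ 2 * hv

/-- `a_m(1/4) = (m+1) E_{m+1} + m E_m` -/
lemma a_quarter (y : R) (hy : 4 * y = 1) (m : ℕ) : a m y = F (m + 1) y + F m y := by
  unfold a F
  rw [sum_range_succ' _ (m + 1)]
  have h0 : ((2 * 0).choose (m + 1) : R) = 0 := by simp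
  rw [h0]
  simp only [mul_zero, zero_mul, add_zero]
  have key : ∀ j ∈ range (m + 1), (m.choose j : R) ^ 2 * ((2 * j).choose m : R) * y ^ j
      = 2 * (((m + 1).choose (j + 1) : R) ^ 2 * ((2 * (j + 1)).choose (m + 1) : R)
            * (3 * ((j + 1 : ℕ) : R) - 2 * ((m + 1 : ℕ) : R)) * y ^ (j + 1))
        + 2 * ((m.choose j : R) ^ 2 * ((2 * j).choose m : R) * (3 * (j : R) - 2 * (m : R)) * y ^ j)
        - (4 * ((m : R) + 1) * (m.choose j : R) ^ 2 * ((2 * j).choose (m + 1) : R) * y ^ j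
          - 4 * ((m : R) + 1) * (m.choose (j + 1) : R) ^ 2 * ((2 * (j + 1)).choose (m + 1) : R)
            * y ^ (j + 1)) := by
    intro j _
    have h1 := congrArg (fun z : ℤ => (z : R)) (term_rel m j)
    have h2 := congrArg (fun z : ℤ => (z : R)) (ch_rel (2 * j) m)
    rw [show 2 * (j + 1) = 2 * j + 2 by ring]
    push_cast at h1 h2 ⊢
    generalize ((m + 1).choose (j + 1) : R) = u at *
    generalize (m.choose j : R) = w at *
    generalize (m.choose (j + 1) : R) = z at *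
    generalize ((2 * j).choose m : R) = v at *
    generalize ((2 * j).choose (m + 1) : R) = q at *
    generalize ((2 * j + 2).choose (m + 1) : R) = t at *
    rw [pow_succ]
    linear_combination (-(w ^ 2 * v * y ^ j * (1 + 2 * (j : R)))) * hy + 2 * y ^ j * y * h1
      + 4 * w ^ 2 * y ^ j * h2
  rw [sum_congr rfl key, sum_sub_distrib, sum_add_distrib, ← mul_sum, ← mul_sum,
    sum_range_sub' (fun j => 4 * ((m : R) + 1) * (m.choose j : R) ^ 2
      * ((2 * j).choose (m + 1) : R) * y ^ j)]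
  simp

lemma g_rel (n l : ℕ) : ((l : ℤ) + 1) * (((n : ℤ) - l) * b l n + ((n : ℤ) - (l + 1)) * b (l + 1) n)
    = (n : ℤ) ^ 2 * ((n.choose (l + 1) : ℤ) * ((n + l).choose l : ℤ)) := by
  have hl : ((l : ℤ) + 1) ≠ 0 := by positivity
  apply mul_left_cancel₀ hl
  have h1 := b_succ l n
  have h2 := ch_rel n l
  have h3 : b l n = (n.choose l : ℤ) * ((n + l).choose l : ℤ) := rfl
  rw [h3] at h1 ⊢
  generalize b (l + 1) n = u at *
  generalize (n.choose (l + 1) : ℤ) = v at *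
  generalize (n.choose l : ℤ) = w at *
  generalize ((n + l).choose l : ℤ) = t at *
  linear_combination ((n : ℤ) - (l + 1)) * h1 - (n : ℤ) ^ 2 * t * h2

/-- the alternating sum at `1/4` -/
theorem closed (y : R) (hy : 4 * y = 1) (n : ℕ) :
    ∑ k ∈ range n, (2 * (k : R) + 1) * (-1) ^ k * A k y
      = (n : R) ^ 2 * ((-1) ^ (n + 1) * ∑ l ∈ range n,
          E l y * ((n.choose (l + 1) : R) * ((n + l).choose l : R))) := by
  have h1 : ∀ k ∈ range n, (2 * (k : R) + 1) * (-1) ^ k * A k y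
      = ∑ s ∈ range n, a s y * ((((2 * (k : ℤ) + 1) * (-1) ^ k * b s k : ℤ)) : R) := by
    intro k hk
    rw [A_eq y (mem_range.mp hk), mul_sum]
    apply sum_congr rfl
    intro s _
    push_cast
    ring
  rw [sum_congr rfl h1, sum_comm]
  have h2 : ∀ s ∈ range n, ∑ k ∈ range n, a s y * ((((2 * (k : ℤ) + 1) * (-1) ^ k * b s k : ℤ)) : R)
      = (-1) ^ (n + 1) * (F (s + 1) y * (((n : ℤ) - s) * b s n : ℤ)
          + F s y * (((n : ℤ) - s) * b s n : ℤ)) := by
    intro s _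
    rw [← mul_sum, ← Int.cast_sum, alt_sum, a_quarter y hy]
    push_cast
    ring
  rw [sum_congr rfl h2, ← mul_sum, sum_add_distrib]
  have h3 : ∑ s ∈ range n, F s y * ((((n : ℤ) - s) * b s n : ℤ) : R)
      = ∑ s ∈ range n, F (s + 1) y * ((((n : ℤ) - (s + 1)) * b (s + 1) n : ℤ) : R) := by
    have e1 : ∑ s ∈ range (n + 1), F s y * ((((n : ℤ) - s) * b s n : ℤ) : R)
        = ∑ s ∈ range n, F s y * ((((n : ℤ) - s) * b s n : ℤ) : R) := by
      rw [sum_range_succ]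
      simp
    rw [← e1, sum_range_succ', F_zero]
    simp
  rw [h3, ← sum_add_distrib]
  rw [mul_left_comm ((n : R) ^ 2)]
  congr 1
  rw [mul_sum]
  apply sum_congr rfl
  intro l _
  have h4 := congrArg (fun z : ℤ => (z : R)) (g_rel n l)
  rw [F_succ]
  push_cast at h4 ⊢
  linear_combination (E l y) * h4

open Polynomial in
/-- there is `G ∈ ℤ[X]` with `∑_{k<n} (2k+1) (-1)^k A_k(X) = n G` -/
lemma exists_G (n : ℕ) : ∃ G : ℤ[X],
    ∑ k ∈ range n, (2 * (k : ℤ[X]) + 1) * (-1) ^ k * A k (X : ℤ[X]) = (n : ℤ[X]) * G := by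
  have h : Sp n (fun k => A k (X : ℤ[X])) := by
    refine ⟨n, fun s => a s X, ?_⟩
    intro k hk
    exact A_eq X hk
  exact h.dvd_alt_sum

section padic

variable {p : ℕ} [Fact p.Prime]

lemma eval_A (x : ℤ_[p]) (k : ℕ) :
    Polynomial.eval₂ (Int.castRingHom ℤ_[p]) x (A k (Polynomial.X : Polynomial ℤ)) = A k x := by
  unfold A
  rw [Polynomial.eval₂_finsetSum]
  apply sum_congr rfl
  intro j _
  rw [Polynomial.eval₂_mul, Polynomial.eval₂_mul, Polynomial.eval₂_pow (n := 2),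
    Polynomial.eval₂_pow (n := 2), Polynomial.eval₂_pow (n := j), Polynomial.eval₂_X,
    Polynomial.eval₂_natCast, Polynomial.eval₂_natCast]

lemma unit_four (hp : p ≠ 2) : IsUnit (4 : ℤ_[p]) := by
  rw [PadicInt.isUnit_iff]
  by_contra h
  have h1 : ‖(4 : ℤ_[p])‖ < 1 := lt_of_le_of_ne (PadicInt.norm_le_one _) h
  have h2 : ‖((4 : ℤ) : ℤ_[p])‖ < 1 := by exact_mod_cast h1
  rw [PadicInt.norm_int_lt_one_iff_dvd] at h2
  have h3 : p ∣ 4 := by exact_mod_cast h2
  have hpp : p.Prime := Fact.out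
  have h4 : p ∣ 2 := hpp.dvd_of_dvd_pow (show p ∣ 2 ^ 2 by simpa using h3)
  exact hp ((Nat.prime_dvd_prime_iff_eq hpp Nat.prime_two).mp h4)

lemma unit_two (hp : p = 2) (x : ℤ_[p]) : IsUnit (4 * x - 1) := by
  rw [PadicInt.isUnit_iff]
  by_contra h
  have h1 : ‖4 * x - 1‖ < 1 := lt_of_le_of_ne (PadicInt.norm_le_one _) h
  have h2 : ‖((4 : ℤ) : ℤ_[p])‖ < 1 := by
    rw [PadicInt.norm_int_lt_one_iff_dvd, hp]
    norm_num
  have h2' : ‖(4 : ℤ_[p])‖ < 1 := by exact_mod_cast h2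
  have h3 : ‖4 * x‖ < 1 := by
    rw [norm_mul]
    calc ‖(4 : ℤ_[p])‖ * ‖x‖ ≤ ‖(4 : ℤ_[p])‖ * 1 :=
          mul_le_mul_of_nonneg_left (PadicInt.norm_le_one x) (norm_nonneg _)
      _ < 1 := by rw [mul_one]; exact h2'
  have h4 : ‖(4 * x) + (-(4 * x - 1))‖ ≤ max ‖4 * x‖ ‖-(4 * x - 1)‖ := PadicInt.nonarchimedean _ _
  rw [norm_neg] at h4
  have h5 : (4 * x) + (-(4 * x - 1)) = 1 := by ring
  rw [h5, norm_one] at h4
  exact absurd (lt_of_le_of_lt h4 (max_lt h3 h1)) (lt_irrefl _)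

/-- the decomposition behind the valuation bound -/
lemma decomp (n : ℕ) (hn : 1 ≤ n) (x : ℤ_[p]) : ∃ U V : ℤ_[p],
    ∑ k ∈ range n, (2 * (k : ℤ_[p]) + 1) * (-1) ^ k * A k x
      = (n : ℤ_[p]) * ((n : ℤ_[p]) * U + (4 * x - 1) * V) := by
  obtain ⟨G, hG⟩ := exists_G n
  have hev : ∀ z : ℤ_[p], ∑ k ∈ range n, (2 * (k : ℤ_[p]) + 1) * (-1) ^ k * A k z
      = (n : ℤ_[p]) * Polynomial.eval z (G.map (Int.castRingHom ℤ_[p])) := by
    intro z
    have h := congrArg (Polynomial.eval₂ (Int.castRingHom ℤ_[p]) z) hG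
    rw [Polynomial.eval₂_finsetSum, Polynomial.eval₂_mul, Polynomial.eval₂_natCast] at h
    rw [Polynomial.eval_map, ← h]
    apply sum_congr rfl
    intro k _
    rw [Polynomial.eval₂_mul, Polynomial.eval₂_mul, eval_A]
    simp [Polynomial.eval₂_add, Polynomial.eval₂_mul, Polynomial.eval₂_pow]
  rw [hev x]
  by_cases hp : p = 2
  · obtain ⟨u, hu⟩ := unit_two hp x
    refine ⟨0, (↑u⁻¹ : ℤ_[p]) * Polynomial.eval x (G.map (Int.castRingHom ℤ_[p])), ?_⟩
    rw [← hu, mul_zero, zero_add, ← mul_assoc (u : ℤ_[p]), Units.mul_inv, one_mul]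
  · obtain ⟨u, hu⟩ := unit_four (p := p) hp
    set y : ℤ_[p] := (↑u⁻¹ : ℤ_[p]) with hy
    have hy1 : 4 * y = 1 := by
      have := Units.mul_inv u
      rw [hy, ← hu]
      exact this
    have h1 := closed y hy1 n
    set W : ℤ_[p] := (-1) ^ (n + 1) * ∑ l ∈ range n,
          E l y * ((n.choose (l + 1) : ℤ_[p]) * ((n + l).choose l : ℤ_[p])) with hW
    rw [hev y] at h1
    have hn0 : ((n : ℕ) : ℤ_[p]) ≠ 0 := by exact_mod_cast (show n ≠ 0 by omega)
    have h2 : Polynomial.eval y (G.map (Int.castRingHom ℤ_[p])) = (n : ℤ_[p]) * W := by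
      apply mul_left_cancel₀ hn0
      rw [h1]
      ring
    obtain ⟨w, hw⟩ := Polynomial.sub_dvd_eval_sub x y (G.map (Int.castRingHom ℤ_[p]))
    refine ⟨W, y * w, ?_⟩
    congr 1
    have h3 : x - y = (4 * x - 1) * y := by
      linear_combination -x * hy1
    rw [← h2]
    linear_combination hw + w * h3

lemma addVal_nonneg (b : ℤ_[p]) : (0 : WithTop ℤ) ≤ Padic.addValuation ((b : ℤ_[p]) : ℚ_[p]) := by
  by_cases hb : b = 0
  · rw [hb]; simp
  · have hb' : ((b : ℤ_[p]) : ℚ_[p]) ≠ 0 := by simpa using hb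
    rw [Padic.addValuation.apply hb']
    have h := PadicInt.valuation_coe_nonneg (x := b)
    exact WithTop.coe_le_coe.mpr h

lemma addVal_mul_le (a b : ℤ_[p]) :
    Padic.addValuation ((a : ℤ_[p]) : ℚ_[p]) ≤ Padic.addValuation (((a * b : ℤ_[p])) : ℚ_[p]) := by
  rw [PadicInt.coe_mul, AddValuation.map_mul]
  exact le_add_of_nonneg_right (addVal_nonneg b)

/-- **Q1 is true**: for every prime `p`, every `n ≥ 1` and every `x ∈ ℤ_p`,
`ν_p((1/n) ∑_{k<n} (2k+1) (-1)^k A_k(x)) ≥ min(ν_p(n), ν_p(4x-1))`. -/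
theorem result (p : ℕ) [Fact p.Prime] (n : ℕ) (hn : 1 ≤ n) (x : ℤ_[p]) :
    min (Padic.addValuation (n : ℚ_[p])) (Padic.addValuation (4 * (x : ℚ_[p]) - 1))
      ≤ Padic.addValuation ((1 / (n : ℚ_[p])) *
          ((∑ k ∈ range n, (2 * (k : ℤ_[p]) + 1) * (-1) ^ k * A k x : ℤ_[p]) : ℚ_[p])) := by
  obtain ⟨U, V, h⟩ := decomp n hn x
  have hn0 : (n : ℚ_[p]) ≠ 0 := by exact_mod_cast (show n ≠ 0 by omega)
  have e1 : (1 / (n : ℚ_[p])) *
      ((∑ k ∈ range n, (2 * (k : ℤ_[p]) + 1) * (-1) ^ k * A k x : ℤ_[p]) : ℚ_[p])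
      = (((n : ℤ_[p]) * U : ℤ_[p]) : ℚ_[p]) + ((((4 * x - 1) * V : ℤ_[p])) : ℚ_[p]) := by
    rw [h]
    push_cast
    field_simp
  rw [e1]
  refine le_trans ?_ (AddValuation.map_add _ _ _)
  apply min_le_min
  · have := addVal_mul_le ((n : ℤ_[p])) U
    simpa using this
  · have h4 : 4 * (x : ℚ_[p]) - 1 = ((4 * x - 1 : ℤ_[p]) : ℚ_[p]) := by
      push_cast
      rfl
    rw [h4]
    exact addVal_mul_le (4 * x - 1) V

end padic

end Pool.Agent.Results.MP_2869d0_nt.AperySums
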